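import Pool.Agent.R740.EF.Fin

set_option autoImplicit false

/-!
# Locally planar even-faced graphs on closed orientable surfaces are 4-list colourable

An embedding of a finite simple graph `G` in a closed orientable surface is given by rotation
systems of its connected components `K` (`Rotation K.toSimpleGraph`, see
`Pool.Agent.R740.EF.Defs`).
-/

namespace Pool.Agent.Results.MP_caf32e_co.EvenFacedFourChoosable

open SimpleGraph Pool.Agent.R740.EF

/-- **Affirmative answer to Q1.** Let the finite simple graph `G` be embedded in the closed
orientable surface of genus `g` (each component has a rotation system of genus at most `g`), such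
that all facial walks have even length and every noncontractible cycle has length at least
`50 g + 5`. Then `G` is 4-list colourable. -/
theorem result (g : ℕ) (V : Type) [Finite V] (G : SimpleGraph V)
    (R : ∀ K : G.ConnectedComponent, Rotation K.toSimpleGraph)
    (hgenus : ∀ K, (R K).GenusLE g) (heven : ∀ K, (R K).EvenFaced)
    (hwidth : ∀ K, (R K).EdgeWidthGE (50 * g + 5)) : Choosable G 4 := by
  classical
  haveI := Fintype.ofFinite V
  intro C L hL
  have h : ∀ K : G.ConnectedComponent, ∃ c : K → C, (∀ v, c v ∈ L v.1) ∧
      ∀ u v, K.toSimpleGraph.Adj u v → c u ≠ c v := by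
    intro K
    exact main (R K) K.connected_toSimpleGraph (hgenus K) (heven K) (hwidth K) C
      (fun v => L v.1) fun v => hL v.1
  choose c hc hc' using h
  have hcast : ∀ (K K' : G.ConnectedComponent), K = K' → ∀ (v : V) (h : v ∈ K.supp)
      (h' : v ∈ K'.supp), c K ⟨v, h⟩ = c K' ⟨v, h'⟩ := by
    rintro K K' rfl v h h'
    rfl
  refine ⟨fun v => c (G.connectedComponentMk v) ⟨v, rfl⟩, fun v => hc _ _, ?_⟩
  intro u v huv
  have hK : G.connectedComponentMk v = G.connectedComponentMk u :=
    (ConnectedComponent.connectedComponentMk_eq_of_adj huv).symm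
  show c (G.connectedComponentMk u) ⟨u, rfl⟩ ≠ c (G.connectedComponentMk v) ⟨v, rfl⟩
  rw [hcast _ _ hK v rfl hK]
  apply hc'
  exact huv

end Pool.Agent.Results.MP_caf32e_co.EvenFacedFourChoosable
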